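import Mathlib
import Pool.Agent.MP_20d318_ag.AC.Asm
import Pool.Agent.MP_20d318_ag.AC.Cob

/-!
The nef cone conjecture for all projective varieties, smooth or normal with a Cartier divisor
supported on each prime divisor, with an effective multiple of the anticanonical divisor, that are
birational to the double cover of the product of `a` complex rational surfaces and at most one line.
-/

set_option autoImplicit false

open AlgebraicGeometry CategoryTheory

namespace Pool.Agent.Results.MP_20d318_ag.AllBirational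

open Pool.Agent.MP_fd6584_ag Pool.Agent.MP_fd6584_ag.Pj Pool.Agent.MP_20d318_ag.RS
  Pool.Agent.MP_20d318_ag.AM

theorem result :
    (∃ (M : Type) (_ : Field M) (_ : Algebra ℂ M) (T : Set (Subalgebra ℂ M))
      (D₁ D₂ : Derivation ℂ M M) (φ : M), Tower T ∧ BiAnti T D₁ D₂ φ ∧
        SmoothZero T D₁ D₂ φ ∧ TwoComp T D₁ D₂ φ) ∧
    ∀ (M : Type) [Field M] [Algebra ℂ M] (a m : ℕ) (T : Fin a → Set (Subalgebra ℂ M))
      (D₁ D₂ : Fin a → Derivation ℂ M M) (φ : Fin a → M) (l : Fin m → ℂ), (∀ i, Tower (T i)) →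
      (∀ i, BiAnti (T i) (D₁ i) (D₂ i) (φ i)) → (∀ i, SmoothZero (T i) (D₁ i) (D₂ i) (φ i)) →
      (∀ i : Fin a, i.1 + 1 < a + m → TwoComp (T i) (D₁ i) (D₂ i) (φ i)) →
      m ≤ 1 → 2 ≤ a + m → (∀ r, l r ≠ 0 ∧ l r ≠ 1) →
        ∃ (X : Scheme.{0}) (_ : IsIntegral X) (s : X ⟶ Spec (CommRingCat.of ℂ)),
          IsProjective s ∧ Smooth s ∧ TrivialCanonical s ∧
            Pool.Agent.MP_20d318_ag.KK.ProdCover s T φ l ∧
              ∀ (X' : Scheme.{0}) [IsIntegral X'] (s' : X' ⟶ Spec (CommRingCat.of ℂ)),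
                IsProjective s' → Smooth s' ∨ Normal X' ∧ QFact X' → AntiEff s' →
                  (∃ σ : X.functionField ≃+* X'.functionField, ∀ c, σ (const s c) = const s' c) →
                    Pool.Agent.MP_20d318_ag.CC.NefConj s' := by
  refine ⟨?_, fun _ _ _ _ _ T D₁ D₂ φ _ h1 h2 h3 h4 h5 h6 h7 => ?_⟩
  · obtain ⟨M, a, b, T, D₁, D₂, φ, _, c, d, e, f, _⟩ :=
      Pool.Agent.MVg.exa_stmt Pool.Agent.MVg.two_stmt ℂ
    exact ⟨M, a, b, T, D₁, D₂, φ, c, d, e, f⟩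
  · obtain ⟨X, i, s, a, b, c, d, e⟩ := (Pool.Agent.MP_20d318_ag.AC.fin h1 h2 h3
      (t := fun i => TwoComp (T i) (D₁ i) (D₂ i) (φ i)) (fun i =>
        let ⟨a, b, c, d, L, e1, e2, e3, e4, e5⟩ := Cb.p1 (h1 i) (h2 i) (h3 i)
        ⟨a, b, c, d, L, e1, e2, e3, ⟨e4.1, e4.2⟩, e5⟩) h4 h5 h6 h7).all
    exact ⟨X, i, s, a, b, c, d, fun X' _ s' p q r t => (e X' s' p q r t).1⟩

end Pool.Agent.Results.MP_20d318_ag.AllBirational
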