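import Mathlib
import Pool.Agent.MP_20d318_ag.AM.K8

/-!
The nef cone conjecture for all normal projective varieties, with a Cartier divisor supported on
each prime divisor, that are isomorphic in codimension one to a smooth projective model with trivial
canonical class of the double cover of the product of `a` complex rational surfaces and at most one
line.
-/

set_option autoImplicit false

open AlgebraicGeometry CategoryTheory

namespace Pool.Agent.Results.MP_20d318_ag.AllModels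

open Pool.Agent.MP_fd6584_ag Pool.Agent.MP_20d318_ag.RS Pool.Agent.MP_20d318_ag.AM

theorem result :
    (∃ (M : Type) (_ : Field M) (_ : Algebra ℂ M) (T : Set (Subalgebra ℂ M))
      (D₁ D₂ : Derivation ℂ M M) (φ φ' : M), Tower T ∧ BiAnti T D₁ D₂ φ ∧
        SmoothZero T D₁ D₂ φ ∧ TwoComp T D₁ D₂ φ ∧ BiAnti T D₁ D₂ φ' ∧ ∀ c : ℂ, φ' ≠ c • φ) ∧
    ∀ (M : Type) [Field M] [Algebra ℂ M] (a m : ℕ) (T : Fin a → Set (Subalgebra ℂ M))
      (D₁ D₂ : Fin a → Derivation ℂ M M) (φ φ' : Fin a → M) (l : Fin m → ℂ), (∀ i, Tower (T i)) →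
      (∀ i, BiAnti (T i) (D₁ i) (D₂ i) (φ i)) → (∀ i, SmoothZero (T i) (D₁ i) (D₂ i) (φ i)) →
      (∀ i, BiAnti (T i) (D₁ i) (D₂ i) (φ' i)) → (∀ i (c : ℂ), φ' i ≠ c • φ i) →
      (∀ i : Fin a, i.1 + 1 < a + m → TwoComp (T i) (D₁ i) (D₂ i) (φ i)) →
      m ≤ 1 → 2 ≤ a + m → (∀ r, l r ≠ 0 ∧ l r ≠ 1) →
        ∃ (X : Scheme.{0}) (_ : IsIntegral X) (s : X ⟶ Spec (CommRingCat.of ℂ)),
          Pool.Agent.MP_fd6584_ag.Pj.IsProjective s ∧ Smooth s ∧ TrivialCanonical s ∧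
            Pool.Agent.MP_20d318_ag.KK.ProdCover s T φ l ∧
              ∀ (X' : Scheme.{0}) [IsIntegral X'] (s' : X' ⟶ Spec (CommRingCat.of ℂ)),
                Pool.Agent.MP_fd6584_ag.Pj.IsProjective s' → Normal X' → QFact X' →
                  SmallMod s s' → Pool.Agent.MP_20d318_ag.CC.NefConj s' :=
  ⟨Pool.Agent.MVg.exa_stmt Pool.Agent.MVg.two_stmt ℂ,
    fun _ _ _ _ _ _ _ _ _ _ _ h1 h2 h3 h4 h5 h6 h7 h8 h9 =>
      let ⟨X, i, s, a, b, c, d, _, e⟩ := (sm.fin h1 h2 h3 h4 h5 h6 h7 h8 h9).scheme sm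
      ⟨X, i, s, a, b, c, d, e⟩⟩

end Pool.Agent.Results.MP_20d318_ag.AllModels
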