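import Mathlib
import Pool.Agent.MP_20d318_ag.BV.Sig1
import Pool.Agent.MP_20d318_ag.BV.SigX
import Pool.Agent.MP_20d318_ag.BV.LatB
import Pool.Agent.MP_20d318_ag.BV.Glue
import Pool.Agent.MP_20d318_ag.BV.Ex
import Pool.Agent.MP_20d318_ag.BV.Etn
import Pool.Agent.MP_20d318_ag.BV.XAlg
import Pool.Agent.MP_20d318_ag.BV.XPl
import Pool.Agent.MP_20d318_ag.BV.Mw
import Pool.Agent.MP_20d318_ag.BV.TZ
import Pool.Agent.MP_20d318_ag.BV.TPa
import Pool.Agent.MP_20d318_ag.BV.SetB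
import Pool.Agent.MP_20d318_ag.BV.XCur
import Pool.Agent.MP_20d318_ag.BV.XCls
import Pool.Agent.MP_20d318_ag.BV.SetC
import Pool.Agent.MP_20d318_ag.BV.FinB

/-!
The nef cone conjecture for the Borcea–Voisin threefolds built from a pencil of plane cubics and
an elliptic curve: Picard number twenty, and an infinite automorphism orbit on `N¹`.
-/

set_option autoImplicit false

open AlgebraicGeometry CategoryTheory

namespace Pool.Agent.Results.MP_20d318_ag.BorceaVoisin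

open Pool.Agent.MP_20d318_ag Pool.Agent.MP_20d318_ag.BV

theorem result : (∃ F G : MvPolynomial (Fin 3) ℂ, Pencil F G) ∧
    ∀ (F G : MvPolynomial (Fin 3) ℂ) (l : ℂ), Pencil F G → l ≠ 0 → l ≠ 1 →
      ∃ (X : Scheme.{0}) (_ : IsIntegral X) (s : X ⟶ Spec (CommRingCat.of ℂ)),
        Pool.Agent.MP_a703b5_ag.IsProjective s ∧ Smooth s ∧ TrivialCanonical s ∧
        BorceaVoisin s F G l ∧ Module.finrank ℝ (Pool.Agent.MP_20d318_ag.N1 s) = 20 ∧
        (∃ ξ ∈ Pool.Agent.MP_20d318_ag.N1 s,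
          (Set.range fun a : CategoryTheory.Aut (Over.mk s) => push a ξ).Infinite) ∧
        ConeConj s :=
  ⟨ex_stmt, Mods.final ⟨latA_stmt, latD_stmt, latB_stmt, latC_stmt, glue_stmt, et_stmt, smG_stmt,
    etN_stmt, htOne_stmt, dimUp_stmt, curve_stmt, plane_stmt, proj_stmt, horB_stmt, clsGen_stmt,
    xHom_stmt, xEx_stmt, up_stmt, tLoc_stmt, pen_stmt, tPl_stmt, tZ_stmt, tPa_stmt, mw_stmt,
    sig1_stmt, sigT_stmt, sig2_stmt, xLoc_stmt, xDiv_stmt, xSm_stmt, xCur_stmt, xTest_stmt,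
    xPl_stmt, xCls_stmt, sigX_stmt, setA_stmt, setB_stmt, setC_stmt, chart_stmt, orb_stmt,
    fin_stmt⟩⟩

end Pool.Agent.Results.MP_20d318_ag.BorceaVoisin
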