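import Mathlib
import Pool.Agent.MP_20d318_ag.CC.Main

/-!
The nef cone conjecture for the complex Borcea–Voisin threefolds attached to a rational surface
with a smooth curve in the square of the anticanonical system, and to an elliptic curve.
-/

set_option autoImplicit false

open AlgebraicGeometry CategoryTheory

namespace Pool.Agent.Results.MP_20d318_ag.BorceaVoisinAll

open Pool.Agent.MP_fd6584_ag Pool.Agent.MP_20d318_ag.RS

theorem result :
    (∃ (M : Type) (_ : Field M) (_ : Algebra ℂ M) (T : Set (Subalgebra ℂ M))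
      (D₁ D₂ : Derivation ℂ M M) (φ : M), Tower T ∧ BiAnti T D₁ D₂ φ ∧ SmoothZero T D₁ D₂ φ) ∧
    ∀ (M : Type) [Field M] [Algebra ℂ M] (T : Set (Subalgebra ℂ M)) (D₁ D₂ : Derivation ℂ M M)
      (φ : M) (l : ℂ), Tower T → BiAnti T D₁ D₂ φ → SmoothZero T D₁ D₂ φ → l ≠ 0 → l ≠ 1 →
        ∃ (X : Scheme.{0}) (_ : IsIntegral X) (s : X ⟶ Spec (CommRingCat.of ℂ)),
          Pool.Agent.MP_fd6584_ag.Pj.IsProjective s ∧ Smooth s ∧ TrivialCanonical s ∧
            DoubleCover s T φ l ∧ Pool.Agent.MP_20d318_ag.CC.NefConj s := by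
  refine ⟨?_, fun _ _ _ _ _ _ _ _ h1 h2 h3 h4 h5 => ?_⟩
  · obtain ⟨M, _, _, T, D₁, D₂, φ, -, h1, h2, h3, -⟩ := Pool.Agent.MP_20d318_ag.CB.P.example_of ℂ
    exact ⟨M, _, _, T, D₁, D₂, φ, h1, h2, h3⟩
  · obtain ⟨X, _, s, a, b, c, d, -, e⟩ := Pool.Agent.MP_20d318_ag.CC.gmods.final h1 h2 h3 h4 h5
    exact ⟨X, _, s, a, b, c, d, e⟩

end Pool.Agent.Results.MP_20d318_ag.BorceaVoisinAll
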