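import Mathlib
import Pool.Agent.MP_20d318_ag.CB.Main

/-!
The nef cone conjecture for the Borcea–Voisin threefolds over a rational surface with a smooth
bi-anticanonical curve that moves.
-/

set_option autoImplicit false

open AlgebraicGeometry CategoryTheory

namespace Pool.Agent.Results.MP_20d318_ag.BorceaVoisinClass

open Pool.Agent.MP_20d318_ag

theorem result :
    (∀ (M : Type) [Field M] [Algebra ℂ M] (T : Set (Subalgebra ℂ M)) (φ : M) (l : ℂ),
      Branch T φ → l ≠ 0 → l ≠ 1 →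
        ∃ (X : Scheme.{0}) (_ : IsIntegral X) (s : X ⟶ Spec (CommRingCat.of ℂ)),
          Pool.Agent.MP_a703b5_ag.IsProjective s ∧ Smooth s ∧ TrivialCanonical s ∧
          DoubleCover s T φ l ∧ ConeConj s) ∧
    ∃ (M : Type) (_ : Field M) (_ : Algebra ℂ M) (T : Set (Subalgebra ℂ M)) (φ : M),
      Branch T φ ∧ ∀ l : ℂ, l ≠ 0 → l ≠ 1 →
        ∃ (X : Scheme.{0}) (_ : IsIntegral X) (s : X ⟶ Spec (CommRingCat.of ℂ)),
          Pool.Agent.MP_a703b5_ag.IsProjective s ∧ Smooth s ∧ TrivialCanonical s ∧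
          DoubleCover s T φ l ∧ ConeConj s ∧ ∃ ξ ∈ Pool.Agent.MP_20d318_ag.N1 s,
            (Set.range fun a : CategoryTheory.Aut (Over.mk s) => push a ξ).Infinite :=
  ⟨CB.main, CB.exm⟩

end Pool.Agent.Results.MP_20d318_ag.BorceaVoisinClass
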