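import Mathlib
import Pool.Agent.MP_20d318_ag.CH.Main

/-!
The nef cone conjecture, in every dimension at least three, for a smooth projective model with
trivial canonical class of the double cover of the product of a complex rational surface and `m`
lines, branched along a smooth curve in the square of the anticanonical system and four points on
each line.
-/

set_option autoImplicit false

open AlgebraicGeometry CategoryTheory

namespace Pool.Agent.Results.MP_20d318_ag.CynkHulek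

open Pool.Agent.MP_fd6584_ag Pool.Agent.MP_20d318_ag.RS

theorem result :
    (∃ (M : Type) (_ : Field M) (_ : Algebra ℂ M) (T : Set (Subalgebra ℂ M))
      (D₁ D₂ : Derivation ℂ M M) (φ : M), Tower T ∧ BiAnti T D₁ D₂ φ ∧ SmoothZero T D₁ D₂ φ) ∧
    ∀ (M : Type) [Field M] [Algebra ℂ M] (T : Set (Subalgebra ℂ M)) (D₁ D₂ : Derivation ℂ M M)
      (φ : M) (m : ℕ) (l : Fin m → ℂ), Tower T → BiAnti T D₁ D₂ φ → SmoothZero T D₁ D₂ φ → 0 < m →
      (∀ r, l r ≠ 0 ∧ l r ≠ 1) →
        ∃ (X : Scheme.{0}) (_ : IsIntegral X) (s : X ⟶ Spec (CommRingCat.of ℂ)),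
          Pool.Agent.MP_fd6584_ag.Pj.IsProjective s ∧ Smooth s ∧ TrivialCanonical s ∧
            Pool.Agent.MP_20d318_ag.CH.MultiCover s T φ l ∧
              Pool.Agent.MP_20d318_ag.CC.NefConj s := by
  refine ⟨?_, fun _ _ _ _ _ _ _ _ _ h1 h2 h3 h4 h5 => ?_⟩
  · obtain ⟨M, _, _, T, D₁, D₂, φ, -, h1, h2, h3, -⟩ := Pool.Agent.MP_20d318_ag.CB.P.example_of ℂ
    exact ⟨M, _, _, T, D₁, D₂, φ, h1, h2, h3⟩
  · obtain ⟨X, _, s, a, b, c, d, -, e⟩ := Pool.Agent.MP_20d318_ag.CH.final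
      Pool.Agent.MP_20d318_ag.CH.mods Pool.Agent.MP_20d318_ag.CH.bmods h1 h2 h3 h4 h5
    exact ⟨X, _, s, a, b, c, d, e⟩

end Pool.Agent.Results.MP_20d318_ag.CynkHulek
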